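import Pool.Agent.Helper24.AG.N4

/-!
# AG-N1: numbers
-/

set_option autoImplicit false

namespace Pool.Agent.Helper24.AG

open Pool.Agent.Helper32.AG

theorem d1 (w : ℕ) (hw : 3 ≤ w) (m : ℕ) :
    2 * (m + 4) ^ 2 * (m + 3) * (w + 1) ^ (m + 4) ≤ 81 * 3 ^ (m + 1) * w ^ (2 * m + 5) := by
  induction m with
  | zero =>
    have h1 : (3 * (w + 1)) ^ 4 ≤ (4 * w) ^ 4 := Nat.pow_le_pow_left (by omega) 4
    have h2 : 3 * w ^ 4 ≤ w * w ^ 4 := Nat.mul_le_mul_right _ hw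
    have e1 : (3 * (w + 1)) ^ 4 = 81 * (w + 1) ^ 4 := by ring
    have e2 : (4 * w) ^ 4 = 256 * w ^ 4 := by ring
    rw [e1, e2] at h1
    have e3 : 2 * (0 + 4) ^ 2 * (0 + 3) * (w + 1) ^ (0 + 4) = 96 * (w + 1) ^ 4 := by ring
    have e4 : 81 * 3 ^ (0 + 1) * w ^ (2 * 0 + 5) = 243 * (w * w ^ 4) := by ring
    rw [e3, e4]
    omega
  | succ m ih =>
    have h1 : (m + 5) ^ 2 * (w + 1) ≤ 3 * w ^ 2 * ((m + 4) * (m + 3)) := by
      have h2 : 9 * (w + 1) ≤ 4 * w ^ 2 := by nlinarith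
      have h3 : 4 * (m + 5) ^ 2 ≤ 27 * ((m + 4) * (m + 3)) := by
        have : 27 * ((m + 4) * (m + 3)) = 4 * (m + 5) ^ 2 + (23 * m ^ 2 + 149 * m + 224) := by ring
        omega
      have h4 : 9 * ((m + 5) ^ 2 * (w + 1)) ≤ 9 * (3 * w ^ 2 * ((m + 4) * (m + 3))) := by
        calc 9 * ((m + 5) ^ 2 * (w + 1)) = (m + 5) ^ 2 * (9 * (w + 1)) := by ring
          _ ≤ (m + 5) ^ 2 * (4 * w ^ 2) := Nat.mul_le_mul_left _ h2
          _ = w ^ 2 * (4 * (m + 5) ^ 2) := by ring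
          _ ≤ w ^ 2 * (27 * ((m + 4) * (m + 3))) := Nat.mul_le_mul_left _ h3
          _ = 9 * (3 * w ^ 2 * ((m + 4) * (m + 3))) := by ring
      omega
    calc 2 * (m + 1 + 4) ^ 2 * (m + 1 + 3) * (w + 1) ^ (m + 1 + 4)
        = 2 * (m + 4) * (w + 1) ^ (m + 4) * ((m + 5) ^ 2 * (w + 1)) := by ring
      _ ≤ 2 * (m + 4) * (w + 1) ^ (m + 4) * (3 * w ^ 2 * ((m + 4) * (m + 3))) :=
          Nat.mul_le_mul_left _ h1
      _ = 3 * w ^ 2 * (2 * (m + 4) ^ 2 * (m + 3) * (w + 1) ^ (m + 4)) := by ring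
      _ ≤ 3 * w ^ 2 * (81 * 3 ^ (m + 1) * w ^ (2 * m + 5)) := Nat.mul_le_mul_left _ ih
      _ = 81 * 3 ^ (m + 1 + 1) * w ^ (2 * (m + 1) + 5) := by ring

theorem d2 (n w : ℕ) (hw : 3 ≤ w) (h : n = 0 → 4 ≤ w) :
    2 * (n + 3) ^ 2 * (n + 2) * (w + 1) ^ (n + 3) ≤ 81 * 3 ^ n * w ^ (2 * n + 3) := by
  rcases n with _ | m
  · have hw4 := h rfl
    have h1 : (4 * (w + 1)) ^ 3 ≤ (5 * w) ^ 3 := Nat.pow_le_pow_left (by omega) 3
    have e1 : (4 * (w + 1)) ^ 3 = 64 * (w + 1) ^ 3 := by ring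
    have e2 : (5 * w) ^ 3 = 125 * w ^ 3 := by ring
    rw [e1, e2] at h1
    have e3 : 2 * (0 + 3) ^ 2 * (0 + 2) * (w + 1) ^ (0 + 3) = 36 * (w + 1) ^ 3 := by ring
    have e4 : 81 * 3 ^ 0 * w ^ (2 * 0 + 3) = 81 * w ^ 3 := by ring
    rw [e3, e4]
    omega
  · exact d1 w hw m

theorem n1 : N1Stmt := by
  intro s w κ c1 c2 r hs hw hκ hc1 hc2 hr h1 h2 h3
  obtain ⟨n, rfl⟩ : ∃ n, s = n + 3 := ⟨s - 3, by omega⟩
  rw [Nat.add_sub_cancel]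
  by_cases hex : n = 0 ∧ w = 3
  · obtain ⟨rfl, rfl⟩ := hex
    have hc : Nat.choose (0 + 3) 2 = 3 := by decide
    rw [hc] at h2
    have h4 : 4 ≤ c1 + c2 + r := by
      by_contra hcon
      have e1 : c1 = 1 := by omega
      have e2 : c2 = 1 := by omega
      have e3 : r = 1 := by omega
      subst e1 e2 e3
      norm_num at h1 h2 h3
      omega
    calc (3 + 1) ^ (0 + 3) ≤ 3 ^ 4 := by norm_num
      _ ≤ 3 ^ (c1 + c2 + r + 0) := Nat.pow_le_pow_right (by norm_num) h4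
  · have hD := d2 n w hw (fun h => by
      have : w ≠ 3 := fun h' => hex ⟨h, h'⟩
      omega)
    have hC : 2 * Nat.choose (n + 3) 2 = (n + 3) * (n + 2) := by
      have h := Nat.triangle_succ (n + 2)
      rw [Nat.choose_two_right]
      have h5 : (n + 3) * (n + 3 - 1) = (n + 3) * (n + 2) := by
        congr 1
      rw [h5]
      have h6 : 2 ∣ (n + 3) * (n + 2) := by
        have := Nat.even_mul_succ_self (n + 2)
        rw [mul_comm]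
        exact this.two_dvd
      exact Nat.mul_div_cancel' h6
    set C := Nat.choose (n + 3) 2 with hCd
    have hw0 : 0 < w := by omega
    -- (A)
    have hA : 9 * κ ^ 2 ≤ 3 ^ (c1 + c2) * ((n + 3) * C * w ^ 3) := by
      calc 9 * κ ^ 2 = (3 * κ) * (3 * κ) := by ring
        _ ≤ (3 ^ c1 * ((n + 3) * w)) * (3 ^ c2 * (C * w ^ 2)) := Nat.mul_le_mul h1 h2
        _ = 3 ^ (c1 + c2) * ((n + 3) * C * w ^ 3) := by rw [pow_add]; ring
    have hB : (w ^ (n + 3)) ^ 2 ≤ r ^ 2 * κ ^ 2 := by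
      rw [← mul_pow]
      exact Nat.pow_le_pow_left h3 2
    have hE : 81 * (w ^ (n + 3)) ^ 2 ≤ 4 * 3 ^ r * (3 ^ (c1 + c2) * ((n + 3) * C * w ^ 3)) := by
      calc 81 * (w ^ (n + 3)) ^ 2 ≤ 81 * (r ^ 2 * κ ^ 2) := Nat.mul_le_mul_left _ hB
        _ = (9 * r ^ 2) * (9 * κ ^ 2) := by ring
        _ ≤ (4 * 3 ^ r) * (3 ^ (c1 + c2) * ((n + 3) * C * w ^ 3)) := Nat.mul_le_mul (nine_sq r) hA
    -- cancel w ^ 3
    have hF : 81 * w ^ (2 * n + 3) ≤ 4 * ((n + 3) * C) * 3 ^ (c1 + c2 + r) := by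
      have h5 : w ^ 3 * (81 * w ^ (2 * n + 3)) ≤
          w ^ 3 * (4 * ((n + 3) * C) * 3 ^ (c1 + c2 + r)) := by
        calc w ^ 3 * (81 * w ^ (2 * n + 3)) = 81 * (w ^ (n + 3)) ^ 2 := by
              rw [← pow_mul]
              ring
          _ ≤ 4 * 3 ^ r * (3 ^ (c1 + c2) * ((n + 3) * C * w ^ 3)) := hE
          _ = w ^ 3 * (4 * ((n + 3) * C) * 3 ^ (c1 + c2 + r)) := by
              rw [pow_add 3 (c1 + c2) r]
              ring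
      exact Nat.le_of_mul_le_mul_left h5 (by positivity)
    have hG : 2 * (n + 3) ^ 2 * (n + 2) * (w + 1) ^ (n + 3) ≤
        2 * (n + 3) ^ 2 * (n + 2) * 3 ^ (c1 + c2 + r + n) := by
      calc 2 * (n + 3) ^ 2 * (n + 2) * (w + 1) ^ (n + 3) ≤ 81 * 3 ^ n * w ^ (2 * n + 3) := hD
        _ = 3 ^ n * (81 * w ^ (2 * n + 3)) := by ring
        _ ≤ 3 ^ n * (4 * ((n + 3) * C) * 3 ^ (c1 + c2 + r)) := Nat.mul_le_mul_left _ hF
        _ = 2 * (n + 3) * (2 * C) * (3 ^ n * 3 ^ (c1 + c2 + r)) := by ring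
        _ = 2 * (n + 3) * ((n + 3) * (n + 2)) * (3 ^ n * 3 ^ (c1 + c2 + r)) := by rw [hC]
        _ = 2 * (n + 3) ^ 2 * (n + 2) * 3 ^ (c1 + c2 + r + n) := by
            rw [pow_add 3 (c1 + c2 + r) n]
            ring
    exact Nat.le_of_mul_le_mul_left hG (by positivity)

end Pool.Agent.Helper24.AG
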