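import Pool.Agent.Helper32.AG.Goals

/-!
# AG-N4: numbers
-/

set_option autoImplicit false

namespace Pool.Agent.Helper24.AG

open Pool.Agent.Helper32.AG

theorem nine_sq (a : ℕ) : 9 * a ^ 2 ≤ 4 * 3 ^ a := by
  match a with
  | 0 => norm_num
  | 1 => norm_num
  | n + 2 =>
    induction n with
    | zero => norm_num
    | succ n ih =>
      have h1 : 9 * (n + 1 + 2) ^ 2 ≤ 3 * (9 * (n + 2) ^ 2) := by
        have : 3 * (9 * (n + 2) ^ 2) = 9 * (n + 1 + 2) ^ 2 + 9 * (2 * n ^ 2 + 6 * n + 3) := by ring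
        omega
      have h2 : 4 * 3 ^ (n + 1 + 2) = 3 * (4 * 3 ^ (n + 2)) := by ring
      rw [h2]
      omega

theorem pow_four_le (q : ℕ) (hq : 3 ≤ q) : q ^ 4 ≤ 3 ^ (q + 2) := by
  rcases Nat.lt_or_ge q 4 with h | h
  · have : q = 3 := by omega
    subst this
    norm_num
  · induction q, h using Nat.le_induction with
    | base => norm_num
    | succ q h ih =>
      have ih' := ih (by omega)
      have h1 : (q + 1) ^ 4 ≤ 3 * q ^ 4 := by
        have h2 : 4 * q ^ 3 ≤ q * q ^ 3 := Nat.mul_le_mul_right _ h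
        have h3 : 16 * q ^ 2 ≤ q ^ 2 * q ^ 2 := Nat.mul_le_mul_right _ (by nlinarith)
        nlinarith
      have h2 : 3 ^ (q + 1 + 2) = 3 * 3 ^ (q + 2) := by ring
      rw [h2]
      omega

theorem n4 : N4Stmt := by
  intro p a b r hp hp2 ha hb h
  have hp3 : 3 ≤ p := by
    have := hp.two_le
    omega
  obtain ⟨n, rfl⟩ : ∃ n, b = n + 2 := ⟨b - 2, by omega⟩
  have e : p ^ (2 * a * (n + 2)) = (p ^ a) ^ (2 * n + 4) := by
    rw [← pow_mul]
    congr 1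
    ring
  rw [e] at h ⊢
  have hq : 3 ^ a ≤ p ^ a := Nat.pow_le_pow_left hp3 a
  have hq3 : 3 ≤ p ^ a := by
    calc 3 = 3 ^ 1 := (pow_one 3).symm
      _ ≤ 3 ^ a := Nat.pow_le_pow_right (by norm_num) ha
      _ ≤ p ^ a := hq
  have h9 : 9 * a ^ 2 ≤ 4 * p ^ a := (nine_sq a).trans (Nat.mul_le_mul_left 4 hq)
  generalize p ^ a = q at *
  obtain ⟨t, rfl⟩ : ∃ t, q = t + 1 := ⟨q - 1, by omega⟩
  rw [Nat.add_sub_cancel] at h
  have hr : (t + 1 + 2) * (t + 1) ^ (2 * n) ≤ r := by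
    by_contra hcon
    rw [not_le] at hcon
    have hQ : 1 ≤ (t + 1) ^ (2 * n) := Nat.one_le_pow _ _ (by omega)
    have hpow : (t + 1) ^ (2 * n + 4) = (t + 1) ^ (2 * n) * (t + 1) ^ 4 := pow_add _ _ _
    rw [hpow] at h
    generalize (t + 1) ^ (2 * n) = Q at *
    have ht : 2 ≤ t := by omega
    -- 9 * everything
    have h1 : 9 * (Q * (t + 1) ^ 4) ≤ 9 * (r * (2 * a ^ 2 * t ^ 2)) + 9 := by omega
    have h2 : 9 * (r * (2 * a ^ 2 * t ^ 2)) = (9 * a ^ 2) * (2 * r * t ^ 2) := by ring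
    have h3 : (9 * a ^ 2) * (2 * r * t ^ 2) ≤ (4 * (t + 1)) * (2 * r * t ^ 2) :=
      Nat.mul_le_mul_right _ h9
    have h4 : r + 1 ≤ (t + 3) * Q := hcon
    have h5 : (4 * (t + 1)) * (2 * (r + 1) * t ^ 2) ≤
        (4 * (t + 1)) * (2 * ((t + 3) * Q) * t ^ 2) := by gcongr
    have h6 : (4 * (t + 1)) * (2 * (r + 1) * t ^ 2) =
        (4 * (t + 1)) * (2 * r * t ^ 2) + 8 * (t + 1) * t ^ 2 := by ring
    have h7 : (4 * (t + 1)) * (2 * ((t + 3) * Q) * t ^ 2) ≤ 8 * (Q * (t + 1) ^ 4) := by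
      have : (t + 1) * ((t + 3) * t ^ 2) ≤ (t + 1) ^ 4 := by
        have h8 : (t + 3) * t ^ 2 ≤ (t + 1) ^ 3 := by nlinarith
        calc (t + 1) * ((t + 3) * t ^ 2) ≤ (t + 1) * (t + 1) ^ 3 := Nat.mul_le_mul_left _ h8
          _ = (t + 1) ^ 4 := by ring
      calc (4 * (t + 1)) * (2 * ((t + 3) * Q) * t ^ 2) = 8 * (Q * ((t + 1) * ((t + 3) * t ^ 2))) := by
            ring
        _ ≤ 8 * (Q * (t + 1) ^ 4) := by gcongr
    have h8 : 9 < 8 * (t + 1) * t ^ 2 := by nlinarith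
    omega
  calc (t + 1) ^ (2 * n + 4) ≤ (t + 1) ^ (4 * (t + 1) ^ (2 * n)) := by
        refine Nat.pow_le_pow_right (by omega) ?_
        have : 2 * n < (t + 1) ^ (2 * n) := Nat.lt_pow_self (by omega)
        omega
    _ = ((t + 1) ^ 4) ^ ((t + 1) ^ (2 * n)) := pow_mul _ _ _
    _ ≤ (3 ^ (t + 1 + 2)) ^ ((t + 1) ^ (2 * n)) := Nat.pow_le_pow_left (pow_four_le _ hq3) _
    _ = 3 ^ ((t + 1 + 2) * (t + 1) ^ (2 * n)) := (pow_mul _ _ _).symm
    _ ≤ 3 ^ r := Nat.pow_le_pow_right (by norm_num) hr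

end Pool.Agent.Helper24.AG
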